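import Pool.Agent.H547.C9.Stm

/-!
# Project C9 (helper547), task b: the sums of `(3 k + 1) C(2 k, k)^3 / 16^k` up to `p` and `2 p`
-/

set_option autoImplicit false
set_option linter.unusedSectionVars false

namespace Pool.Agent.H990.C9B

open Finset Pool.Agent.R439.PL Pool.Agent.H547 Pool.Agent.H547.C9

/-! ### The exact identity -/

theorem w_zero : w 0 = 1 := by simp [w]

theorem cb_succ (k : ℕ) : ((k : ℚ) + 1) * (Nat.centralBinom (k + 1) : ℚ) =
    2 * (2 * k + 1) * (Nat.centralBinom k : ℚ) := by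
  have h := Nat.succ_mul_centralBinom_succ k
  exact_mod_cast h

theorem w_succ (k : ℕ) : 2 * ((k : ℚ) + 1) * w (k + 1) = (2 * k + 1) * w k := by
  unfold w
  have h := cb_succ k
  have h4 : (4 : ℚ) ^ k ≠ 0 := by positivity
  rw [pow_succ]
  field_simp
  linarith

/-- the telescoping function -/
def G (M k : ℕ) : ℚ := 2 * k * w k * ((M + k).choose (M + 1) : ℚ)

theorem G_zero (M : ℕ) : G M 0 = 0 := by simp [G]

theorem ab (M k : ℕ) : ((M : ℚ) + 1) * ((M + k).choose (M + 1) : ℚ) = k * ((M + k).choose M : ℚ) := by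
  have h := Nat.choose_succ_right_eq (M + k) M
  rw [Nat.add_sub_cancel_left] at h
  have h' : ((M + k).choose (M + 1) : ℚ) * ((M : ℚ) + 1) = ((M + k).choose M : ℚ) * k := by
    exact_mod_cast h
  linarith

theorem step (M k : ℕ) : (2 * (M : ℚ) + 3) * (w k * ((M + 1 + k).choose k : ℚ)) -
    (2 * M + 2) * (w k * ((M + k).choose k : ℚ)) = G M (k + 1) - G M k := by
  have e1 : (M + k).choose k = (M + k).choose M := by
    rw [← Nat.choose_symm_add]
  have e2 : (M + 1 + k).choose k = (M + k).choose M + (M + k).choose (M + 1) := by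
    rw [← Nat.choose_symm_add, show M + 1 + k = (M + k) + 1 by ring, Nat.choose_succ_succ]
  have e3 : (M + (k + 1)).choose (M + 1) = (M + k).choose M + (M + k).choose (M + 1) := by
    rw [show M + (k + 1) = (M + k) + 1 by ring, Nat.choose_succ_succ]
  unfold G
  rw [e1, e2, e3]
  have hab := ab M k
  have hw := w_succ k
  push_cast
  have e4 : 2 * ((k : ℚ) + 1) * w (k + 1) * (((M + k).choose M : ℚ) + ((M + k).choose (M + 1) : ℚ)) =
      (2 * k + 1) * w k * (((M + k).choose M : ℚ) + ((M + k).choose (M + 1) : ℚ)) := by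
    rw [hw]
  rw [e4]
  have e5 : w k * (((M : ℚ) + 1) * ((M + k).choose (M + 1) : ℚ)) = w k * (k * ((M + k).choose M : ℚ)) := by
    rw [hab]
  linarith

/-- `T M` is the sum for `N = M + 1` -/
def T (M : ℕ) : ℚ := ∑ m ∈ range (M + 1), w m * ((M + m).choose m : ℚ)

theorem T_step (M : ℕ) : (2 * (M : ℚ) + 3) * T (M + 1) - (2 * M + 2) * T M =
    (3 * M + 4) * (w (M + 1) * (Nat.centralBinom (M + 1) : ℚ)) := by
  have h1 : T (M + 1) = (∑ m ∈ range (M + 1), w m * ((M + 1 + m).choose m : ℚ)) +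
      w (M + 1) * (Nat.centralBinom (M + 1) : ℚ) := by
    unfold T
    rw [sum_range_succ]
    congr 2
    rw [Nat.centralBinom, show M + 1 + (M + 1) = 2 * (M + 1) by ring]
  have h2 : (2 * (M : ℚ) + 3) * (∑ m ∈ range (M + 1), w m * ((M + 1 + m).choose m : ℚ)) -
      (2 * M + 2) * T M = G M (M + 1) - G M 0 := by
    unfold T
    rw [mul_sum, mul_sum, ← sum_sub_distrib, ← sum_range_sub]
    exact sum_congr rfl fun k _ => step M k
  rw [G_zero, sub_zero] at h2
  have h3 : G M (M + 1) = (M + 1) * (w (M + 1) * (Nat.centralBinom (M + 1) : ℚ)) := by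
    have e : (Nat.centralBinom (M + 1)) = 2 * (M + (M + 1)).choose (M + 1) := by
      rw [Nat.centralBinom, show 2 * (M + 1) = (M + (M + 1)) + 1 by ring, Nat.choose_succ_succ]
      have : (M + (M + 1)).choose M = (M + (M + 1)).choose (M + 1) := Nat.choose_symm_add
      rw [this]
      ring
    unfold G
    rw [e]
    push_cast
    ring
  rw [h1]
  rw [h3] at h2
  linarith

theorem exact (M : ℕ) : SU 3 1 (1 / 16) (M + 1) = 2 * ((M : ℚ) + 1) * w (M + 1) * T M := by
  induction M with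
  | zero =>
    simp [SU, T, w, Nat.centralBinom]
    norm_num
  | succ M ih =>
    have e1 : SU 3 1 (1 / 16) (M + 1 + 1) = SU 3 1 (1 / 16) (M + 1) +
        (3 * M + 4) * (w (M + 1) * (Nat.centralBinom (M + 1) : ℚ)) * w (M + 1) := by
      have : SU 3 1 (1 / 16) (M + 1 + 1) = SU 3 1 (1 / 16) (M + 1) +
          (3 * ((M + 1 : ℕ) : ℚ) + 1) * (Nat.centralBinom (M + 1) : ℚ) ^ 3 * (1 / 16) ^ (M + 1) := by
        unfold SU
        rw [sum_range_succ]
      rw [this]
      congr 1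
      unfold w
      have h16 : ((1 : ℚ) / 16) ^ (M + 1) = 1 / (4 ^ (M + 1) * 4 ^ (M + 1)) := by
        rw [div_pow, one_pow, ← mul_pow]
        norm_num
      rw [h16]
      push_cast
      field_simp
      ring
    rw [e1, ih, ← T_step M]
    have hw := w_succ (M + 1)
    have : 2 * (((M + 1 : ℕ) : ℚ) + 1) * w (M + 1 + 1) * T (M + 1) =
        (2 * ((M + 1 : ℕ) : ℚ) + 1) * w (M + 1) * T (M + 1) := by rw [hw]
    rw [this]
    push_cast
    ring

/-! ### Congruences -/

variable {p : ℕ} [hp : Fact p.Prime]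

theorem I_of_modEq {a b : ℕ} (h : a ≡ b [MOD p]) : I p 1 ((a : ℚ) - b) := by
  obtain ⟨c, hc⟩ := Nat.modEq_iff_dvd.1 h
  refine ⟨-(c : ℚ), neg_mem (int_mem c), ?_⟩
  have : (b : ℚ) - a = p * c := by exact_mod_cast hc
  rw [pow_one]
  linarith

theorem I_of_dvd {a : ℕ} (h : p ∣ a) : I p 1 (a : ℚ) := by
  have := I_of_modEq (p := p) (a := a) (b := 0) ((Nat.modEq_zero_iff_dvd).2 h)
  simpa using this

theorem U4 (h3 : 3 < p) (m : ℕ) : U p ((4 : ℚ) ^ m) := by
  have : U p ((2 : ℚ) * 2) := (u2 (by omega)).mul (u2 (by omega))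
  have e : (2 : ℚ) * 2 = 4 := by norm_num
  rw [e] at this
  exact this.pow m

theorem w_mem (h3 : 3 < p) (m : ℕ) : w m ∈ Zp p := dmem (nat_mem _) (U4 h3 m)

theorem lucas (n k : ℕ) : n.choose k ≡ (n % p).choose (k % p) * (n / p).choose (k / p) [MOD p] :=
  Choose.choose_modEq_choose_mod_mul_choose_div_nat

theorem fermat (a : ℕ) : a ^ p ≡ a [MOD p] := by
  rw [← ZMod.natCast_eq_natCast_iff]
  push_cast
  exact ZMod.pow_card _

theorem c2 : I p 1 ((Nat.centralBinom p : ℚ) - 2) := by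
  have hpos := hp.out.pos
  have h := lucas (p := p) (2 * p) p
  rw [Nat.mul_mod_left, Nat.mod_self, Nat.mul_div_cancel _ hpos, Nat.div_self hpos] at h
  have h' := I_of_modEq h
  simpa [Nat.centralBinom] using h'

theorem c4 : I p 1 ((Nat.centralBinom (2 * p) : ℚ) - 6) := by
  have hpos := hp.out.pos
  have h := lucas (p := p) (4 * p) (2 * p)
  rw [Nat.mul_mod_left, Nat.mul_mod_left, Nat.mul_div_cancel _ hpos, Nat.mul_div_cancel _ hpos] at h
  have h' := I_of_modEq h
  have e : (Nat.choose 0 0 * Nat.choose 4 2 : ℕ) = 6 := by decide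
  rw [e] at h'
  have e2 : Nat.centralBinom (2 * p) = (4 * p).choose (2 * p) := by
    rw [Nat.centralBinom, show 2 * (2 * p) = 4 * p by ring]
  rw [e2]
  exact_mod_cast h'

theorem c3 : I p 1 ((((2 * p - 1) + p).choose p : ℚ) - 2) := by
  have hpos := hp.out.pos
  have h := lucas (p := p) ((2 * p - 1) + p) p
  have e0 : (2 * p - 1) + p = (p - 1) + p * 2 := by omega
  have e1 : ((2 * p - 1) + p) % p = p - 1 := by
    rw [e0, Nat.add_mul_mod_self_left]
    exact Nat.mod_eq_of_lt (by omega)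
  have e2 : ((2 * p - 1) + p) / p = 2 := by
    rw [e0, Nat.add_mul_div_left _ _ hpos, Nat.div_eq_of_lt (by omega)]
  rw [e1, e2, Nat.mod_self, Nat.div_self hpos] at h
  have h' := I_of_modEq h
  simpa using h'

theorem w1 (h3 : 3 < p) : I p 1 (2 * w p - 1) := by
  have hu := U4 h3 p
  have h1 : I p 1 (((4 ^ p : ℕ) : ℚ) - (4 : ℕ)) := I_of_modEq (fermat 4)
  have h2 : I p 1 (2 * ((Nat.centralBinom p : ℚ) - 2) - (((4 ^ p : ℕ) : ℚ) - (4 : ℕ))) :=
    ((c2 (p := p)).mulL (nm 2)).sub h1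
  refine icg (h2.mulR hu.2.2) ?_
  have := hu.1
  unfold w
  push_cast
  field_simp
  ring

theorem w2 (h3 : 3 < p) : I p 1 (8 * w (2 * p) - 3) := by
  have hu := U4 h3 (2 * p)
  have h1 : I p 1 (((16 ^ p : ℕ) : ℚ) - (16 : ℕ)) := I_of_modEq (fermat 16)
  have h2 : I p 1 (8 * ((Nat.centralBinom (2 * p) : ℚ) - 6) - 3 * (((16 ^ p : ℕ) : ℚ) - (16 : ℕ))) :=
    ((c4 (p := p)).mulL (nm 8)).sub (h1.mulL (nm 3))
  refine icg (h2.mulR hu.2.2) ?_
  have := hu.1
  have e : (4 : ℚ) ^ (2 * p) = 16 ^ p := by rw [pow_mul]; norm_num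
  rw [e] at this
  unfold w
  rw [e]
  push_cast
  field_simp
  ring

theorem small {N m : ℕ} (hN : 0 < N) (hpN : p ∣ N) (hm : ¬ p ∣ m) :
    I p 1 ((((N - 1) + m).choose m : ℕ) : ℚ) := by
  apply I_of_dvd
  obtain ⟨M, rfl⟩ : ∃ M, N = M + 1 := ⟨N - 1, by omega⟩
  obtain ⟨j, rfl⟩ : ∃ j, m = j + 1 := by
    refine ⟨m - 1, ?_⟩
    have : m ≠ 0 := by
      rintro rfl
      exact hm (dvd_zero _)
    omega
  rw [Nat.add_sub_cancel]
  have h := Nat.choose_succ_right_eq (M + (j + 1)) j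
  have e : M + (j + 1) - j = M + 1 := by omega
  rw [e] at h
  have h1 : p ∣ (M + (j + 1)).choose (j + 1) * (j + 1) := by
    rw [h]
    exact hpN.mul_left _
  rcases hp.out.dvd_mul.1 h1 with h2 | h2
  · exact h2
  · exact absurd h2 hm

theorem T1 (h3 : 3 < p) : I p 1 (T (p - 1) - 1) := by
  unfold T
  rw [show p - 1 + 1 = (p - 1) + 1 from rfl, sum_range_succ']
  have e : w 0 * (((p - 1) + 0).choose 0 : ℚ) = 1 := by rw [w_zero]; simp
  rw [e, add_sub_cancel_right]
  apply I.sum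
  intro i hi
  rw [mem_range] at hi
  have hs := small (p := p) (N := p) (m := i + 1) hp.out.pos dvd_rfl (by
    intro h
    have := Nat.le_of_dvd (by omega) h
    omega)
  exact hs.mulL (w_mem h3 _)

theorem T2 (h3 : 3 < p) : I p 1 (T (2 * p - 1) - 2) := by
  have hpos := hp.out.pos
  unfold T
  have e0 : 2 * p - 1 + 1 = 2 * p := by omega
  rw [e0]
  have hsub : ({0, p} : Finset ℕ) ⊆ range (2 * p) := by
    intro x hx
    rw [mem_insert, mem_singleton] at hx
    rw [mem_range]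
    omega
  rw [← sum_sdiff hsub, sum_pair (by omega : (0 : ℕ) ≠ p)]
  have e1 : w 0 * ((2 * p - 1 + 0).choose 0 : ℚ) = 1 := by rw [w_zero]; simp
  rw [e1]
  have h1 : I p 1 (∑ m ∈ range (2 * p) \ {0, p}, w m * ((2 * p - 1 + m).choose m : ℚ)) := by
    apply I.sum
    intro m hm
    rw [mem_sdiff, mem_range, mem_insert, mem_singleton, not_or] at hm
    have hs := small (p := p) (N := 2 * p) (m := m) (by omega) (dvd_mul_left _ _) (by
      rintro ⟨c, rfl⟩
      obtain ⟨h1, h2, h3'⟩ := hm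
      have hc : c < 2 := by
        by_contra hcon
        push Not at hcon
        have := Nat.mul_le_mul_left p hcon
        omega
      interval_cases c
      · simp at h2
      · simp at h3')
    exact hs.mulL (w_mem h3 _)
  have h2 : I p 1 (w p * ((2 * p - 1 + p).choose p : ℚ) - 1) := by
    refine icg (((c3 (p := p)).mulL (w_mem h3 p)).add (w1 h3)) ?_
    ring
  exact icg (h1.add h2) (by ring)

theorem b : S_b := by
  intro p hp h3
  have hpos := hp.out.pos
  constructor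
  · have e := exact (p - 1)
    have e1 : p - 1 + 1 = p := by omega
    have e2 : ((p - 1 : ℕ) : ℚ) + 1 = p := by
      exact_mod_cast e1
    rw [e1, e2] at e
    rw [e]
    have hT := T1 h3
    have hTm : T (p - 1) ∈ Zp p := by
      have := add_mem hT.mem (one_mem (Zp p))
      rwa [sub_add_cancel] at this
    have h : I p 1 ((2 * w p - 1) * T (p - 1) + (T (p - 1) - 1)) := ((w1 h3).mulR hTm).add hT
    exact icg ((I_p (p := p)).mul h) (by ring)
  · have e := exact (2 * p - 1)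
    have e1 : 2 * p - 1 + 1 = 2 * p := by omega
    have e2 : ((2 * p - 1 : ℕ) : ℚ) + 1 = 2 * p := by
      exact_mod_cast e1
    rw [e1, e2] at e
    rw [e]
    have hT := T2 h3
    have hTm : T (2 * p - 1) ∈ Zp p := by
      have := add_mem hT.mem (nm (p := p) 2)
      rwa [sub_add_cancel] at this
    have k2 : (1 / 2 : ℚ) ∈ Zp p := m23 h3 1 1 0 (by norm_num)
    have k3 : (3 / 2 : ℚ) ∈ Zp p := m23 h3 3 1 0 (by norm_num)
    have h : I p 1 ((8 * w (2 * p) - 3) * T (2 * p - 1) * (1 / 2) + (T (2 * p - 1) - 2) * (3 / 2)) :=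
      (((w2 h3).mulR hTm).mulR k2).add (hT.mulR k3)
    exact icg ((I_p (p := p)).mul h) (by ring)

end Pool.Agent.H990.C9B
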